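import Pool.Agent.N303.SJ.Stm

set_option autoImplicit false

/-! # SJ/JEN: Jensen's inequality for the localisations -/

open MeasureTheory Metric Set
open scoped ENNReal RealInnerProductSpace NNReal

namespace Pool.Agent.N395.SJ

open Pool.Agent.N303.SH Pool.Agent.N303.SJ

/-- Jensen's inequality with a weight -/
lemma jensen {α : Type*} [MeasurableSpace α] (μ : Measure α) (w G : α → ℝ≥0∞)
    (hw : Measurable w) (hG : Measurable G) {r : ℝ} (hr : 1 < r) :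
    (∫⁻ y, w y * G y ∂μ) ^ r ≤ (∫⁻ y, w y ∂μ) ^ (r - 1) * ∫⁻ y, w y * G y ^ r ∂μ := by
  have hr0 : 0 < r := by linarith
  have hr1 : r - 1 ≠ 0 := by linarith
  obtain ⟨r', hr'⟩ : ∃ r' : ℝ, r' = Real.conjExponent r := ⟨_, rfl⟩
  have hconj : r'.HolderConjugate r := by
    rw [hr']
    exact (Real.HolderConjugate.conjExponent hr).symm
  have hr'0 : 0 < r' := hconj.pos
  have hsum : 1 / r' + 1 / r = 1 := by
    have := hconj.inv_add_inv_eq_one
    simpa [one_div] using this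
  have hmul : 1 / r' * r = r - 1 := by
    have h1 : 1 / r' = 1 - 1 / r := by linarith
    rw [h1]
    field_simp
  have h := ENNReal.lintegral_mul_le_Lp_mul_Lq μ hconj (f := fun y => w y ^ (1 / r'))
    (g := fun y => w y ^ (1 / r) * G y) (hw.pow_const _).aemeasurable
    ((hw.pow_const _).mul hG).aemeasurable
  have e1 : ∀ y, ((fun y => w y ^ (1 / r')) * fun y => w y ^ (1 / r) * G y) y = w y * G y := by
    intro y
    show w y ^ (1 / r') * (w y ^ (1 / r) * G y) = w y * G y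
    rw [← mul_assoc, ← ENNReal.rpow_add_of_nonneg _ _ (by positivity) (by positivity), hsum,
      ENNReal.rpow_one]
  have e2 : ∀ y, (w y ^ (1 / r')) ^ r' = w y := by
    intro y
    rw [← ENNReal.rpow_mul, one_div_mul_cancel hr'0.ne', ENNReal.rpow_one]
  have e3 : ∀ y, (w y ^ (1 / r) * G y) ^ r = w y * G y ^ r := by
    intro y
    rw [ENNReal.mul_rpow_of_nonneg _ _ hr0.le, ← ENNReal.rpow_mul, one_div_mul_cancel hr0.ne',
      ENNReal.rpow_one]
  simp_rw [e1, e2, e3] at h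
  calc (∫⁻ y, w y * G y ∂μ) ^ r
      ≤ ((∫⁻ y, w y ∂μ) ^ (1 / r') * (∫⁻ y, w y * G y ^ r ∂μ) ^ (1 / r)) ^ r :=
        ENNReal.rpow_le_rpow h hr0.le
    _ = (∫⁻ y, w y ∂μ) ^ (r - 1) * ∫⁻ y, w y * G y ^ r ∂μ := by
        rw [ENNReal.mul_rpow_of_nonneg _ _ hr0.le, ← ENNReal.rpow_mul, ← ENNReal.rpow_mul,
          one_div_mul_cancel hr0.ne', ENNReal.rpow_one, hmul]

theorem t_jen : S_JEN := by
  intro n p D hD hc hs hint q hq g hg hg2
  have hr : 1 < q / 2 := by linarith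
  have hq0 : 0 ≤ q / 2 := by linarith
  -- the weight
  have hwc : Continuous fun z : S n × S n => p z.1 z.2 ^ 2 := hc.pow 2
  have hwm : Measurable fun z : S n × S n => ENNReal.ofReal (p z.1 z.2 ^ 2) :=
    ENNReal.measurable_ofReal.comp hwc.measurable
  have hwm1 : ∀ x, Measurable fun y : S n => ENNReal.ofReal (p x y ^ 2) := fun x =>
    hwm.comp (measurable_const.prodMk measurable_id)
  have hG : Measurable fun y => ‖g y‖ₑ ^ (2 : ℝ) := hg.enorm.pow_const _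
  have hbd : ∀ x, ∫⁻ y, ENNReal.ofReal (p x y ^ 2) ∂(sg n) ≤ ENNReal.ofReal D := by
    intro x
    have hpx : Continuous fun y : S n => p x y ^ 2 := (p x).continuous.pow 2
    have hi : Integrable (fun y : S n => p x y ^ 2) (sg n) :=
      hpx.integrable_of_hasCompactSupport (HasCompactSupport.of_compactSpace _)
    rw [← ofReal_integral_eq_lintegral_ofReal hi (ae_of_all _ fun y => sq_nonneg _)]
    exact ENNReal.ofReal_le_ofReal (hint x)
  have hpt : ∀ x, ENNReal.ofReal (∫ y, p x y ^ 2 * ‖g y‖ ^ 2 ∂(sg n)) ≤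
      ∫⁻ y, ENNReal.ofReal (p x y ^ 2) * ‖g y‖ₑ ^ (2 : ℝ) ∂(sg n) := by
    intro x
    have hm : Measurable fun y => p x y ^ 2 * ‖g y‖ ^ 2 :=
      (((p x).continuous.pow 2).measurable).mul (hg.norm.pow_const 2)
    rw [integral_eq_lintegral_of_nonneg_ae (ae_of_all _ fun y => by positivity)
      hm.aestronglyMeasurable]
    refine ENNReal.ofReal_toReal_le.trans (le_of_eq (lintegral_congr fun y => ?_))
    rw [ENNReal.ofReal_mul (sq_nonneg _), ENNReal.ofReal_pow (norm_nonneg _), ofReal_norm]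
    norm_cast
  have hxy : ∀ x, ENNReal.ofReal (∫ y, p x y ^ 2 * ‖g y‖ ^ 2 ∂(sg n)) ^ (q / 2) ≤
      ENNReal.ofReal D ^ (q / 2 - 1) *
        ∫⁻ y, ENNReal.ofReal (p x y ^ 2) * (‖g y‖ₑ ^ (2 : ℝ)) ^ (q / 2) ∂(sg n) := by
    intro x
    refine (ENNReal.rpow_le_rpow (hpt x) hq0).trans ((jensen _ _ _ (hwm1 x) hG hr).trans ?_)
    gcongr
    exact hbd x
  have hDq : ENNReal.ofReal (D ^ (q / 2)) = ENNReal.ofReal D ^ (q / 2 - 1) * ENNReal.ofReal D := by
    rw [← ENNReal.ofReal_rpow_of_pos hD]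
    conv_rhs => rw [← ENNReal.rpow_one (ENNReal.ofReal D), ← ENNReal.rpow_mul, one_mul]
    rw [← ENNReal.rpow_add_of_nonneg _ _ (by linarith) (by norm_num)]
    congr 1
    ring
  have hGq : ∀ y, (‖g y‖ₑ ^ (2 : ℝ)) ^ (q / 2) = ‖g y‖ₑ ^ q := by
    intro y
    rw [← ENNReal.rpow_mul]
    congr 1
    ring
  have hjm : Measurable (Function.uncurry fun x y : S n =>
      ENNReal.ofReal (p x y ^ 2) * (‖g y‖ₑ ^ (2 : ℝ)) ^ (q / 2)) :=
    hwm.mul ((hG.pow_const _).comp measurable_snd)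
  calc ∫⁻ x, ENNReal.ofReal (∫ y, p x y ^ 2 * ‖g y‖ ^ 2 ∂(sg n)) ^ (q / 2) ∂(sg n)
      ≤ ∫⁻ x, ENNReal.ofReal D ^ (q / 2 - 1) *
        ∫⁻ y, ENNReal.ofReal (p x y ^ 2) * (‖g y‖ₑ ^ (2 : ℝ)) ^ (q / 2) ∂(sg n) ∂(sg n) :=
        lintegral_mono hxy
    _ = ENNReal.ofReal D ^ (q / 2 - 1) * ∫⁻ x,
        ∫⁻ y, ENNReal.ofReal (p x y ^ 2) * (‖g y‖ₑ ^ (2 : ℝ)) ^ (q / 2) ∂(sg n) ∂(sg n) :=
        lintegral_const_mul _ hjm.lintegral_prod_right'
    _ = ENNReal.ofReal D ^ (q / 2 - 1) * ∫⁻ y,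
        ∫⁻ x, ENNReal.ofReal (p x y ^ 2) * (‖g y‖ₑ ^ (2 : ℝ)) ^ (q / 2) ∂(sg n) ∂(sg n) := by
        rw [lintegral_lintegral_swap hjm.aemeasurable]
    _ ≤ ENNReal.ofReal D ^ (q / 2 - 1) * ∫⁻ y, ENNReal.ofReal D * ‖g y‖ₑ ^ q ∂(sg n) := by
        gcongr with y
        have hm : Measurable fun x : S n => ENNReal.ofReal (p x y ^ 2) :=
          hwm.comp (measurable_id.prodMk measurable_const)
        rw [lintegral_mul_const _ hm, hGq]
        gcongr
        have h1 := hbd y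
        simp_rw [hs y] at h1
        exact h1
    _ = ENNReal.ofReal (D ^ (q / 2)) * ∫⁻ y, ‖g y‖ₑ ^ q ∂(sg n) := by
        rw [lintegral_const_mul _ (hg.enorm.pow_const _), hDq, mul_assoc]

end Pool.Agent.N395.SJ
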